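import Pool.Agent.Results.MP_0909b4_al.NotAutomatic

/-! The earlier hand-in, parked: its statement follows from the hand-in `NotAutomatic`. -/

namespace Pool.Agent.Work.MP_0909b4_al.Parked

open Pool.Agent.Work.MP_0909b4_al Pool.Agent.Work.MP_0909b4_al.NA

theorem notBiautomatic_old : ∃ (K : PECx) (_ : MetricSpace K.Pt) (G : Type) (_ : Group G)
    (_ : MulAction G K.Pt), (∃ σ ∈ K.faces, σ.card = 3) ∧ (∀ x y : K.Pt, ∃ r, K.Chain x y r) ∧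
    (∀ x y : K.Pt, dist x y = K.d x y) ∧ IsCAT0 K.Pt ∧
    (∀ (g : G) (x y : K.Pt), dist (g • x) (g • y) = dist x y) ∧
    (∀ x : K.Pt, ∃ r > 0, {g : G | ∃ y ∈ Metric.ball x r, g • y ∈ Metric.ball x r}.Finite) ∧
    (∃ C : Set K.Pt, IsCompact C ∧ ∀ x : K.Pt, ∃ g : G, g • x ∈ C) ∧ Group.FG G ∧
    ¬IsBiautomatic G := by
  obtain ⟨K, m, G, g, a, h1, h2, h3, h4, h5, -, -, h6, h7, h8, -, h9⟩ :=
    Pool.Agent.Results.MP_0909b4_al.NotAutomatic.result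
  exact ⟨K, m, G, g, a, h1, h2, h3, h4, h5, h6, h7, h8, h9⟩

end Pool.Agent.Work.MP_0909b4_al.Parked
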